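import Pool.Agent.K3h53.UG.Stm2

/-!
# UG2 brick COMP: the polynomial whose roots are the values `N(t)`
-/

set_option autoImplicit false

namespace Pool.Agent.K3h55.UG

open Polynomial

theorem t_COMP : Pool.Agent.K3h53.UG.S_COMP := by
  classical
  intro A _ f N hf hn
  have hnt : Nontrivial A := by
    by_contra h
    rw [not_nontrivial_iff_subsingleton] at h
    have : f = 0 := Subsingleton.elim _ _
    rw [this, natDegree_zero] at hn
    exact lt_irrefl _ hn
  let pb := AdjoinRoot.powerBasis' hf
  let b := pb.basis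
  let L := Algebra.leftMulMatrix b
  let M := L (AdjoinRoot.mk f N)
  have hdim : pb.dim = f.natDegree := AdjoinRoot.powerBasis'_dim hf
  refine ⟨M.charpoly, Matrix.charpoly_monic M, ?_, ?_⟩
  · rw [Matrix.charpoly_natDegree_eq_dim, Fintype.card_fin, hdim]
  intro χ
  have hmap : M.charpoly.map χ = (M.map χ).charpoly := (Matrix.charpoly_map M χ).symm
  refine ⟨fun t ht => ?_, fun u hu => ?_⟩
  · -- the eigenvector
    rw [hmap, Matrix.eval_charpoly]
    have hev : f.eval₂ χ t = 0 := by rw [← eval_map]; exact ht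
    let φ : AdjoinRoot f →+* ℂ := AdjoinRoot.lift χ t hev
    let v : Fin pb.dim → ℂ := fun i => φ (b i)
    have hφ : ∀ (a : A) (x : AdjoinRoot f), φ (a • x) = χ a * φ x := by
      intro a x
      rw [Algebra.smul_def, map_mul]
      congr 1
      exact AdjoinRoot.lift_of hev
    have hv0 : v ≠ 0 := by
      intro hv
      have h1 : φ 1 = 0 := by
        rw [← b.sum_repr (1 : AdjoinRoot f), map_sum]
        refine Finset.sum_eq_zero fun i _ => ?_
        rw [hφ]
        have : φ (b i) = 0 := congrFun hv i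
        rw [this, mul_zero]
      rw [map_one] at h1
      exact one_ne_zero h1
    have hNt : φ (AdjoinRoot.mk f N) = (N.map χ).eval t := by
      rw [AdjoinRoot.lift_mk, eval_map]
    rw [← Matrix.exists_vecMul_eq_zero_iff]
    refine ⟨v, hv0, ?_⟩
    funext j
    rw [Matrix.vecMul_sub, Pi.sub_apply, Pi.zero_apply, sub_eq_zero]
    have e1 : (Matrix.vecMul v (Matrix.scalar (Fin pb.dim) ((N.map χ).eval t))) j =
        (N.map χ).eval t * v j := by
      rw [Matrix.scalar_apply, Matrix.vecMul_diagonal, mul_comm]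
    have e2 : (Matrix.vecMul v (M.map χ)) j = φ (AdjoinRoot.mk f N * b j) := by
      rw [← b.sum_repr (AdjoinRoot.mk f N * b j), map_sum]
      simp only [Matrix.vecMul, dotProduct]
      refine Finset.sum_congr rfl fun i _ => ?_
      rw [hφ, Matrix.map_apply, mul_comm]
      congr 2
      exact Algebra.leftMulMatrix_eq_repr_mul b _ i j
    rw [e1, e2, map_mul, hNt]
  · -- coprimality
    rw [hmap, Matrix.eval_charpoly] at hu
    by_contra hcon
    push Not at hcon
    set f' : ℂ[X] := f.map χ with hf'
    set N' : ℂ[X] := N.map χ with hN'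
    have hf'm : f'.Monic := hf.map χ
    have hcop : IsCoprime (C u - N') f' := by
      rw [Polynomial.isCoprime_iff_aeval_ne_zero_of_isAlgClosed ℂ ℂ]
      intro t
      by_cases ht : f'.eval t = 0
      · left
        have h1 := hcon t ht
        rw [coe_aeval_eq_eval, eval_sub, eval_C]
        exact fun h2 => h1 (sub_eq_zero.mp h2).symm
      · right
        rw [coe_aeval_eq_eval]
        exact ht
    obtain ⟨U, V, hUV⟩ := hcop
    let Cr : Matrix (Fin pb.dim) (Fin pb.dim) ℂ := (L (AdjoinRoot.root f)).map χ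
    let Φ₁ : A[X] →+* Matrix (Fin pb.dim) (Fin pb.dim) ℂ :=
      (χ.mapMatrix.comp (L : AdjoinRoot f →+* Matrix (Fin pb.dim) (Fin pb.dim) A)).comp
        (AdjoinRoot.mk f)
    let Φ₂ : A[X] →+* Matrix (Fin pb.dim) (Fin pb.dim) ℂ :=
      ((aeval Cr : ℂ[X] →ₐ[ℂ] _) : ℂ[X] →+* _).comp (mapRingHom χ)
    have hΦ : Φ₁ = Φ₂ := by
      refine Polynomial.ringHom_ext (fun a => ?_) ?_
      · show (L (AdjoinRoot.mk f (C a))).map χ = aeval Cr ((C a : A[X]).map χ)
        rw [AdjoinRoot.mk_C, map_C, aeval_C, ← AdjoinRoot.algebraMap_eq, AlgHom.commutes]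
        ext i j
        by_cases h : i = j
        · subst h; simp [Matrix.algebraMap_matrix_apply]
        · simp [Matrix.algebraMap_matrix_apply, h]
      · show (L (AdjoinRoot.mk f X)).map χ = aeval Cr ((X : A[X]).map χ)
        rw [AdjoinRoot.mk_X, map_X, aeval_X]
    have hN : aeval Cr N' = M.map χ := by
      have := RingHom.congr_fun hΦ N
      exact this.symm
    have hF : aeval Cr f' = 0 := by
      have h1 := RingHom.congr_fun hΦ f
      have h2 : Φ₁ f = 0 := by
        show (L (AdjoinRoot.mk f f)).map χ = 0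
        rw [AdjoinRoot.mk_self, map_zero]
        ext i j
        simp
      rw [h2] at h1
      exact h1.symm
    have h3 := congrArg (aeval Cr) hUV
    rw [map_add, map_mul, map_mul, map_sub, map_one, hF, mul_zero, add_zero, hN, aeval_C] at h3
    have h4 := congrArg Matrix.det h3
    have h5 : (algebraMap ℂ (Matrix (Fin pb.dim) (Fin pb.dim) ℂ)) u = Matrix.scalar _ u := rfl
    rw [Matrix.det_mul, Matrix.det_one, h5, hu, mul_zero] at h4
    exact zero_ne_one h4

end Pool.Agent.K3h55.UG
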