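import Pool.Agent.K3h53.UG.Stm4
import Pool.Agent.K3h76.EX.Dom
import Pool.Agent.K3h74.EX.TopUpp
import Pool.Agent.K3h91.EX.Prep

/-! UG project (helper53, MP_209724_lc), brick GEO: the geometry of a hypersurface near a good
direction. -/

set_option autoImplicit false

namespace Pool.Agent.K3h55.UG

open MvPolynomial Filter Topology Metric Set Pool.Agent.K3h22.EX Pool.Agent.K3h53.UG

theorem dd_ne {s : ℕ} (u : Fin s → ℂ) (F : MvPolynomial (Fin s) ℂ) (h : dd u (top F) ≠ 0) :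
    dd u F ≠ 0 := by
  intro h0
  apply h
  have key : ∀ (q : MvPolynomial (Fin s) ℂ) (m : Fin s →₀ ℕ), coeff m (dd u q) =
      ∑ j, u j * (coeff (m + Finsupp.single j 1) q * ((m j : ℂ) + 1)) := by
    intro q m
    unfold dd
    rw [coeff_sum]
    refine Finset.sum_congr rfl fun j _ => ?_
    rw [coeff_C_mul, coeff_pderiv]
  ext m
  rw [coeff_zero, key]
  have hdeg : ∀ j, (m + Finsupp.single j 1).degree = m.degree + 1 := by
    intro j
    rw [map_add, Finsupp.degree_single]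
  by_cases hd : m.degree + 1 = F.totalDegree
  · have h1 := key F m
    rw [h0, coeff_zero] at h1
    rw [h1]
    refine Finset.sum_congr rfl fun j _ => ?_
    unfold top
    rw [coeff_homogeneousComponent, if_pos (by rw [hdeg, hd])]
  · refine Finset.sum_eq_zero fun j _ => ?_
    unfold top
    rw [coeff_homogeneousComponent, if_neg (by rw [hdeg]; exact hd), zero_mul, mul_zero]

theorem norm_xp_le {s : ℕ} (k : Fin (s + 1)) (u : Fin (s + 1) → ℝ) (l : Fin s → ℂ) (θ : ℂ) :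
    ‖xp k u l θ‖ ≤ ‖l‖ + ‖u‖ * ‖θ‖ := by
  rw [pi_norm_le_iff_of_nonneg (by positivity)]
  intro i
  unfold xp
  refine (norm_add_le _ _).trans (add_le_add ?_ ?_)
  · rcases Fin.eq_self_or_eq_succAbove k i with rfl | ⟨j, rfl⟩
    · rw [Fin.insertNth_apply_same, norm_zero]
      exact norm_nonneg _
    · rw [Fin.insertNth_apply_succAbove]
      exact norm_le_pi_norm l j
  · rw [norm_mul, Complex.norm_real]
    exact mul_le_mul_of_nonneg_right (norm_le_pi_norm u i) (norm_nonneg _)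

theorem sc_div {s : ℕ} {R : ℝ} (hR : 0 < R) (x : Fin s → ℂ) :
    sc R (fun i => ((R⁻¹ : ℝ) : ℂ) * x i) = x := by
  have hRc : (R : ℂ) ≠ 0 := by exact_mod_cast hR.ne'
  funext i
  unfold sc
  push_cast
  rw [← mul_assoc, mul_inv_cancel₀ hRc, one_mul]

theorem norm_div_R {s : ℕ} {R : ℝ} (hR : 0 < R) (x : Fin s → ℂ) :
    ‖(fun i => ((R⁻¹ : ℝ) : ℂ) * x i : Fin s → ℂ)‖ = ‖x‖ / R := by
  have h : (fun i => ((R⁻¹ : ℝ) : ℂ) * x i : Fin s → ℂ) = ((R⁻¹ : ℝ) : ℂ) • x := by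
    funext i
    rfl
  rw [h, norm_smul, Complex.norm_real, Real.norm_of_nonneg (by positivity), inv_mul_eq_div]

theorem up {s : ℕ} (q : MvPolynomial (Fin s) ℂ) (ρ : ℝ) : ∃ C : ℝ, 0 ≤ C ∧
    ∀ R : ℝ, 1 ≤ R → ∀ x : Fin s → ℂ, ‖x‖ ≤ ρ * R → ‖eval x q‖ ≤ C * R ^ q.totalDegree := by
  obtain ⟨C, hC, h⟩ := Pool.Agent.K3h74.EX.t_TOP s q ρ
  obtain ⟨B, hB, hb⟩ := Pool.Agent.K3h74.EX.exists_bound (top q) ρ
  refine ⟨C + B, by positivity, fun R hR x hx => ?_⟩
  have hR0 : (0 : ℝ) < R := by linarith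
  have hvn : ‖(fun i => ((R⁻¹ : ℝ) : ℂ) * x i : Fin s → ℂ)‖ ≤ ρ := by
    rw [norm_div_R hR0, div_le_iff₀ hR0]
    exact hx
  have h1 := h R hR _ hvn
  have h2 := hb _ hvn
  rw [sc_div hR0] at h1
  set v : Fin s → ℂ := fun i => ((R⁻¹ : ℝ) : ℂ) * x i with hv
  have h3 : ‖eval x q‖ ≤ ‖eval x q - (R : ℂ) ^ q.totalDegree * eval v (top q)‖ +
      ‖(R : ℂ) ^ q.totalDegree * eval v (top q)‖ := by
    have := norm_add_le (eval x q - (R : ℂ) ^ q.totalDegree * eval v (top q))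
      ((R : ℂ) ^ q.totalDegree * eval v (top q))
    rwa [sub_add_cancel] at this
  rw [norm_mul, norm_pow, Complex.norm_real, Real.norm_of_nonneg hR0.le] at h3
  have hp : 0 ≤ R ^ q.totalDegree := by positivity
  have h4 : C * R ^ q.totalDegree / R ≤ C * R ^ q.totalDegree :=
    div_le_self (by positivity) hR
  have h5 := mul_le_mul_of_nonneg_left h2 hp
  linarith

theorem one_poly {s : ℕ} (F G G' : MvPolynomial (Fin (s + 1)) ℂ) (h : MvPolynomial (Fin s) ℂ)
    (k : Fin (s + 1)) (u : Fin (s + 1) → ℝ) (lam : Fin s → ℂ) (θ : ℂ)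
    (hid : ∀ (l : Fin s → ℂ) (θ : ℂ), eval (xp k u l θ) F = 0 →
      eval (xp k u l θ) G * eval (xp k u l θ) G' = eval l h)
    (hlam : eval lam (top h) ≠ 0) : ∃ C : ℝ, 0 ≤ C ∧
    ∀ᶠ x in (atTop : Filter ℝ) ×ˢ 𝓝 lam, ∀ t : ℂ, ‖t - x.1 * θ‖ ≤ x.1 / 4 →
      eval (xp k u (sc x.1 x.2) t) F = 0 → eval (xp k u (sc x.1 x.2) t) G ≠ 0 ∧
        |Real.log ‖eval (xp k u (sc x.1 x.2) t) G‖| ≤ C * (1 + Real.log x.1) := by
  set ρ : ℝ := ‖lam‖ + 1 + ‖u‖ * (‖θ‖ + 1 / 4) with hρ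
  obtain ⟨A, hA, hA'⟩ := up G ρ
  obtain ⟨B, hB, hB'⟩ := up G' ρ
  set c : ℝ := ‖eval lam (top h)‖ / 2 with hc
  have hc0 : 0 < c := half_pos (norm_pos_iff.2 hlam)
  have hlA : 0 ≤ Real.log (A + 1) := Real.log_nonneg (by linarith)
  have hlB : 0 ≤ Real.log (B + 1) := Real.log_nonneg (by linarith)
  refine ⟨|Real.log c| + Real.log (A + 1) + Real.log (B + 1) + G.totalDegree + G'.totalDegree,
    by positivity, ?_⟩
  have e1 : ∀ᶠ v in 𝓝 lam, ‖v‖ ≤ ‖lam‖ + 1 := by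
    filter_upwards [ball_mem_nhds lam one_pos] with v hv
    have h0 : ‖v‖ ≤ ‖lam‖ + ‖v - lam‖ := norm_le_norm_add_norm_sub' v lam
    rw [mem_ball, dist_eq_norm] at hv
    linarith
  filter_upwards [(eventually_ge_atTop (1 : ℝ)).prod_inl (𝓝 lam), e1.prod_inr atTop,
    Pool.Agent.K3h76.EX.lower Pool.Agent.K3h74.EX.t_TOP h lam hlam] with x hR hv hlow t ht hF
  set R : ℝ := x.1 with hRdef
  have hR0 : (0 : ℝ) < R := by linarith
  have hl : ‖sc R x.2‖ ≤ R * (‖lam‖ + 1) := by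
    have : sc R x.2 = (R : ℂ) • x.2 := by
      funext i
      rfl
    rw [this, norm_smul, Complex.norm_real, Real.norm_of_nonneg hR0.le]
    exact mul_le_mul_of_nonneg_left hv hR0.le
  have htn : ‖t‖ ≤ R * (‖θ‖ + 1 / 4) := by
    have h0 : ‖t‖ ≤ ‖(R : ℂ) * θ‖ + ‖t - R * θ‖ := norm_le_norm_add_norm_sub' t _
    rw [norm_mul, Complex.norm_real, Real.norm_of_nonneg hR0.le] at h0
    linarith
  have hx : ‖xp k u (sc R x.2) t‖ ≤ ρ * R := by
    refine (norm_xp_le k u _ t).trans ?_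
    have h0 := mul_le_mul_of_nonneg_left htn (norm_nonneg u)
    rw [hρ]
    nlinarith
  have hG := hA' R hR _ hx
  have hG' := hB' R hR _ hx
  have hprod := hid _ _ hF
  have hlow' : c ≤ ‖eval (xp k u (sc R x.2) t) G‖ * ‖eval (xp k u (sc R x.2) t) G'‖ := by
    rw [← norm_mul, hprod]
    exact hlow
  set g : ℝ := ‖eval (xp k u (sc R x.2) t) G‖ with hg
  set g' : ℝ := ‖eval (xp k u (sc R x.2) t) G'‖ with hg'
  have hgn : 0 ≤ g := norm_nonneg _
  have hgp : 0 < g := by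
    rcases hgn.eq_or_lt with h0 | h0
    · rw [← h0, zero_mul] at hlow'
      linarith
    · exact h0
  refine ⟨norm_pos_iff.1 hgp, ?_⟩
  have hL : 0 ≤ Real.log R := Real.log_nonneg hR
  have hpow : (0 : ℝ) < R ^ G.totalDegree := by positivity
  have hpow' : (0 : ℝ) < R ^ G'.totalDegree := by positivity
  have hup : Real.log g ≤ Real.log (A + 1) + G.totalDegree * Real.log R := by
    rw [← Real.log_pow, ← Real.log_mul (by positivity) (by positivity)]
    apply Real.log_le_log hgp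
    nlinarith
  have hlo : Real.log c - Real.log (B + 1) - G'.totalDegree * Real.log R ≤ Real.log g := by
    have h1 : c ≤ g * ((B + 1) * R ^ G'.totalDegree) := by
      refine hlow'.trans (mul_le_mul_of_nonneg_left ?_ hgn)
      nlinarith
    have h2 := Real.log_le_log hc0 h1
    rw [Real.log_mul hgp.ne' (by positivity), Real.log_mul (by positivity) (by positivity),
      Real.log_pow] at h2
    linarith
  have hn1 : (0 : ℝ) ≤ G.totalDegree := Nat.cast_nonneg _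
  have hn2 : (0 : ℝ) ≤ G'.totalDegree := Nat.cast_nonneg _
  have hab := neg_abs_le (Real.log c)
  have hab0 := abs_nonneg (Real.log c)
  have t1 := mul_nonneg hab0 hL
  have t2 := mul_nonneg hlA hL
  have t3 := mul_nonneg hlB hL
  have t4 := mul_nonneg hn1 hL
  have t5 := mul_nonneg hn2 hL
  rw [abs_le]
  constructor <;> nlinarith

theorem t_GEO : S_DIR4 → S_BR → S_NORM → S_GEO := by
  intro hDIR hBR hNORM s F k u huk hF hNR T hT
  have hdd : dd (fun i => ((u i : ℝ) : ℂ)) F ≠ 0 := by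
    apply dd_ne
    obtain ⟨ξ, η, -, -, h3⟩ := hNR
    intro h0
    rw [h0, map_zero] at h3
    exact h3 rfl
  choose! hh G' hne hid using fun G (hG : G ∈ T) => hNORM s F k u huk hF hdd G (hT G hG)
  have hQ0 : ∏ G ∈ T, top (hh G) ≠ 0 := Finset.prod_ne_zero_iff.2 fun G hG =>
    Pool.Agent.K3h91.EX.top_ne_zero (hne G hG)
  have hQh : (∏ G ∈ T, top (hh G)).IsHomogeneous (∑ G ∈ T, (hh G).totalDegree) :=
    IsHomogeneous.prod T _ _ fun G _ => homogeneousComponent_isHomogeneous _ _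
  obtain ⟨lam, θ, hre, hθ, hz, hdz, hQz⟩ := hDIR s F.totalDegree (top F) k u
    (homogeneousComponent_isHomogeneous _ _) huk hNR _ _ hQ0 hQh
  rw [map_prod, Finset.prod_ne_zero_iff] at hQz
  obtain ⟨ε, C, R₀, hε, hC, hR₀, hψ⟩ := hBR s F k u lam θ hz hdz
  choose! c hc0 hc using fun G (hG : G ∈ T) =>
    one_poly F G (G' G) (hh G) k u lam θ (hid G hG) (hQz G hG)
  have hall := (Filter.eventually_all_finset T).2 hc
  obtain ⟨pa, hpa, pb, hpb, hab⟩ := Filter.eventually_prod_iff.1 hall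
  obtain ⟨R₁, hR₁⟩ := Filter.eventually_atTop.1 hpa
  obtain ⟨δ, hδ, hδ'⟩ := Metric.eventually_nhds_iff_ball.1 hpb
  have hcs : ∀ G ∈ T, c G ≤ ∑ G ∈ T, c G := fun G hG =>
    Finset.single_le_sum (f := c) (fun G hG => hc0 G hG) hG
  have hsum : 0 ≤ ∑ G ∈ T, c G := Finset.sum_nonneg fun G hG => hc0 G hG
  refine ⟨lam, hre, min ε δ, C + ∑ G ∈ T, c G, max R₀ R₁, lt_min hε hδ, by positivity,
    hR₀.trans (le_max_left _ _), fun R hR => ?_⟩
  have hR1 : R₀ ≤ R := (le_max_left _ _).trans hR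
  have hR2 : R₁ ≤ R := (le_max_right _ _).trans hR
  have hR0 : 0 < R := by linarith
  have hLR : 0 ≤ Real.log R := Real.log_nonneg (by linarith)
  obtain ⟨ψ, hψ1, hψ2, hψ3⟩ := hψ R hR1
  have hsub : ball (sc R lam) (min ε δ * R) ⊆ ball (sc R lam) (ε * R) :=
    ball_subset_ball (mul_le_mul_of_nonneg_right (min_le_left _ _) hR0.le)
  have hre' : ∀ t : ℂ, (t - R * θ).re = t.re - R := by
    intro t
    rw [Complex.sub_re, Complex.re_ofReal_mul, hθ, mul_one]
  refine ⟨ψ, hψ1.mono hsub, ?_, fun l hl => ?_⟩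
  · have h1 := (Complex.abs_re_le_norm (ψ (sc R lam) - R * θ)).trans hψ3
    rw [hre'] at h1
    linarith
  · obtain ⟨h1, h2⟩ := hψ2 l (hsub hl)
    refine ⟨h1, ?_, fun G hG => ?_⟩
    · have h3 := (Complex.abs_re_le_norm (ψ l - R * θ)).trans h2
      rw [hre', abs_le] at h3
      linarith [h3.1]
    · have hv : (fun i => ((R⁻¹ : ℝ) : ℂ) * l i : Fin s → ℂ) ∈ ball lam δ := by
        have e1 : (fun i => ((R⁻¹ : ℝ) : ℂ) * l i : Fin s → ℂ) - lam =
            fun i => ((R⁻¹ : ℝ) : ℂ) * (l - sc R lam) i := by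
          have hRc : (R : ℂ) ≠ 0 := by exact_mod_cast hR0.ne'
          funext i
          simp only [Pi.sub_apply, sc]
          push_cast
          field_simp
        rw [mem_ball, dist_eq_norm, e1, norm_div_R hR0, div_lt_iff₀ hR0]
        rw [mem_ball, dist_eq_norm] at hl
        exact hl.trans_le (mul_le_mul_of_nonneg_right (min_le_right _ _) hR0.le)
      have h3 := hab (hR₁ R hR2) (hδ' _ hv) G hG (ψ l)
      simp only at h3
      rw [sc_div hR0] at h3
      obtain ⟨h4, h5⟩ := h3 h2 h1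
      refine ⟨h4, h5.trans (mul_le_mul_of_nonneg_right ?_ (by linarith))⟩
      have := hcs G hG
      linarith

end Pool.Agent.K3h55.UG
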